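import Pool.Agent.Helper27.T4.Sch

/-!
# T4' (MP_12a1af): sizes of the families
-/

namespace Pool.Agent.Helper36.T4

open Finset Pool.Agent.Helper27.T4 Pool.Agent.Helper5.ET

/-- one step of the borders: `b / 2 < bb (k+1) - bb k ≤ b / 2 + w` -/
theorem bb_gt2 (k : ℕ) : bb k < 2 * (bb (k + 1) - bb k) := by
  have h := wof_bb_pos k
  show bb k < 2 * (bb k + (bb k / (2 * wof (bb k)) + 1) * wof (bb k) - bb k)
  rw [Nat.add_sub_cancel_left]
  have h1 := Nat.lt_div_mul_add (a := bb k) (b := 2 * wof (bb k)) (by positivity)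
  have h2 : 2 * ((bb k / (2 * wof (bb k)) + 1) * wof (bb k)) =
      bb k / (2 * wof (bb k)) * (2 * wof (bb k)) + 2 * wof (bb k) := by ring
  rw [h2]
  exact h1

theorem bb_le2 (k : ℕ) : 2 * (bb (k + 1) - bb k) ≤ bb k + 2 * wof (bb k) := by
  show 2 * (bb k + (bb k / (2 * wof (bb k)) + 1) * wof (bb k) - bb k) ≤ _
  rw [Nat.add_sub_cancel_left]
  have h1 := Nat.div_mul_le_self (bb k) (2 * wof (bb k))
  have h2 : 2 * ((bb k / (2 * wof (bb k)) + 1) * wof (bb k)) =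
      bb k / (2 * wof (bb k)) * (2 * wof (bb k)) + 2 * wof (bb k) := by ring
  rw [h2]
  omega

/-- the owner of the era `k` -/
def fk (k : ℕ) : Fin 3 := ⟨k % 3, Nat.mod_lt _ (by norm_num)⟩

theorem fk_add3 (k : ℕ) : fk (k + 3) = fk k := by
  apply Fin.ext
  show (k + 3) % 3 = k % 3
  omega

theorem own_eq (y k : ℕ) (h1 : bb k ≤ y) (h2 : y < bb (k + 1)) : own y = fk k := by
  apply Fin.ext
  show era y % 3 = k % 3
  rw [era_eq y k h1 h2]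

theorem cnt_split (f : Fin 3) {y z : ℕ} (h : y ≤ z) :
    cnt f z = cnt f y + ((Ico y z).filter (fun t => own t = f)).card := by
  unfold cnt
  have h1 : range z = range y ∪ Ico y z := by
    ext t
    simp only [mem_range, mem_union, mem_Ico]
    omega
  rw [h1, filter_union, card_union_of_disjoint]
  rw [Finset.disjoint_left]
  intro t h2 h3
  rw [mem_filter, mem_range] at h2
  rw [mem_filter, mem_Ico] at h3
  omega

theorem cnt_same (f : Fin 3) {y z : ℕ} (h : y ≤ z) (h1 : ∀ t, y ≤ t → t < z → own t ≠ f) :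
    cnt f z = cnt f y := by
  rw [cnt_split f h, filter_false_of_mem, card_empty, add_zero]
  intro t ht
  rw [mem_Ico] at ht
  exact h1 t ht.1 ht.2

theorem cnt_grow (f : Fin 3) {y z : ℕ} (h : y ≤ z) (h1 : ∀ t, y ≤ t → t < z → own t = f) :
    cnt f z = cnt f y + (z - y) := by
  rw [cnt_split f h, filter_true_of_mem, Nat.card_Ico]
  intro t ht
  rw [mem_Ico] at ht
  exact h1 t ht.1 ht.2

theorem fk_ne (k : ℕ) : fk (k + 1) ≠ fk k ∧ fk (k + 2) ≠ fk k := by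
  constructor <;>
  · intro h
    have := congrArg Fin.val h
    simp only [fk] at this
    omega

/-- inside the era `k` -/
theorem cnt_era (k y : ℕ) (h1 : bb k ≤ y) (h2 : y ≤ bb (k + 1)) :
    cnt (fk k) y = cnt (fk k) (bb k) + (y - bb k) ∧
      cnt (fk (k + 1)) y = cnt (fk (k + 1)) (bb k) ∧
      cnt (fk (k + 2)) y = cnt (fk (k + 2)) (bb k) := by
  refine ⟨cnt_grow _ h1 ?_, cnt_same _ h1 ?_, cnt_same _ h1 ?_⟩
  · intro t ht1 ht2
    exact own_eq t k ht1 (lt_of_lt_of_le ht2 h2)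
  · intro t ht1 ht2
    rw [own_eq t k ht1 (lt_of_lt_of_le ht2 h2)]
    exact (fk_ne k).1.symm
  · intro t ht1 ht2
    rw [own_eq t k ht1 (lt_of_lt_of_le ht2 h2)]
    exact (fk_ne k).2.symm

theorem cnt_le (f : Fin 3) (y : ℕ) : cnt f y ≤ y := by
  unfold cnt
  exact (card_filter_le _ _).trans (by rw [card_range])

theorem cnt_lip (f : Fin 3) {y z : ℕ} (h : y ≤ z) : cnt f y ≤ cnt f z ∧ cnt f z ≤ cnt f y + (z - y) := by
  rw [cnt_split f h]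
  refine ⟨Nat.le_add_right _ _, Nat.add_le_add_left ?_ _⟩
  exact (card_filter_le _ _).trans (by rw [Nat.card_Ico])

/-- size of the owner of the era `k` at its beginning -/
def Lo (k : ℕ) : ℕ := cnt (fk k) (bb k)

theorem Lo_next1 (k : ℕ) : cnt (fk (k + 1)) (bb k) = Lo (k + 1) := by
  unfold Lo
  exact (cnt_era k (bb (k + 1)) (bb_lt_succ k).le le_rfl).2.1.symm

theorem Lo_next2 (k : ℕ) : cnt (fk (k + 2)) (bb k) = Lo (k + 2) := by
  unfold Lo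
  have h1 := (cnt_era k (bb (k + 1)) (bb_lt_succ k).le le_rfl).2.2
  have h2 := (cnt_era (k + 1) (bb (k + 1 + 1)) (bb_lt_succ (k + 1)).le le_rfl).2.1
  rw [← h1]
  exact h2.symm

theorem Lo_rec (k : ℕ) : Lo (k + 3) = Lo k + (bb (k + 1) - bb k) := by
  have h1 := (cnt_era k (bb (k + 1)) (bb_lt_succ k).le le_rfl).1
  have h2 := (cnt_era (k + 1) (bb (k + 1 + 1)) (bb_lt_succ (k + 1)).le le_rfl).2.2
  have h3 := (cnt_era (k + 2) (bb (k + 2 + 1)) (bb_lt_succ (k + 2)).le le_rfl).2.1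
  have h4 : fk (k + 1 + 2) = fk k := fk_add3 k
  have h5 : fk (k + 2 + 1) = fk k := fk_add3 k
  rw [h4] at h2
  rw [h5] at h3
  unfold Lo
  rw [fk_add3]
  show cnt (fk k) (bb (k + 2 + 1)) = _
  rw [h3]
  show cnt (fk k) (bb (k + 1 + 1)) = _
  rw [h2, h1]

/-- ratio of the borders -/
theorem bb_ratio (ε : ℝ) (hε : 0 < ε) : ∃ k0 : ℕ, ∀ k ≥ k0,
    (3 / 2 : ℝ) * bb k ≤ bb (k + 1) ∧ (bb (k + 1) : ℝ) ≤ (3 / 2 + ε) * bb k := by
  obtain ⟨y0, h0⟩ := wof_le_eps ε hε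
  refine ⟨y0, fun k hk => ?_⟩
  have h1 := h0 (bb k) (hk.trans (le_bb k))
  have h2 := bb_gt2 k
  have h3 := bb_le2 k
  have h4 := bb_lt_succ k
  have h5 : (bb k : ℝ) < 2 * ((bb (k + 1) : ℝ) - bb k) := by
    have : bb k + 2 * bb k < 2 * bb (k + 1) := by omega
    have h6 : ((bb k + 2 * bb k : ℕ) : ℝ) < ((2 * bb (k + 1) : ℕ) : ℝ) := by exact_mod_cast this
    push_cast at h6
    linarith
  have h7 : 2 * ((bb (k + 1) : ℝ) - bb k) ≤ bb k + 2 * wof (bb k) := by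
    have : 2 * bb (k + 1) ≤ bb k + 2 * wof (bb k) + 2 * bb k := by omega
    have h6 : ((2 * bb (k + 1) : ℕ) : ℝ) ≤ ((bb k + 2 * wof (bb k) + 2 * bb k : ℕ) : ℝ) := by
      exact_mod_cast this
    push_cast at h6
    linarith
  constructor <;> linarith

theorem Lo_rec_err (ε : ℝ) (hε : 0 < ε) : ∃ k0 : ℕ, ∀ k ≥ k0,
    |(Lo (k + 3) : ℝ) - 4 / 19 * bb (k + 3)| ≤ |(Lo k : ℝ) - 4 / 19 * bb k| + ε * bb k ∧
      3 * (bb k : ℝ) ≤ bb (k + 3) := by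
  have hδ : 0 < min (ε / 4) (1 / 4) := by positivity
  obtain ⟨k0, h0⟩ := bb_ratio (min (ε / 4) (1 / 4)) hδ
  have hd1 : min (ε / 4) (1 / 4) ≤ ε / 4 := min_le_left _ _
  have hd2 : min (ε / 4) (1 / 4) ≤ 1 / 4 := min_le_right _ _
  generalize min (ε / 4) (1 / 4) = δ at *
  refine ⟨k0, fun k hk => ?_⟩
  obtain ⟨a1, a2⟩ := h0 k hk
  obtain ⟨b1, b2⟩ := h0 (k + 1) (by omega)
  obtain ⟨c1, c2⟩ := h0 (k + 2) (by omega)
  have h1 : (Lo (k + 3) : ℝ) = Lo k + (bb (k + 1) - bb k) := by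
    rw [Lo_rec, Nat.cast_add, Nat.cast_sub (bb_lt_succ k).le]
  have hb : (0 : ℝ) < bb k := by
    have := bb_ge_pow k
    exact_mod_cast (show 0 < bb k by omega)
  have e1 : (bb (k + 1 + 1) : ℝ) = bb (k + 2) := rfl
  have e2 : (bb (k + 2 + 1) : ℝ) = bb (k + 3) := rfl
  rw [e1] at b1 b2
  rw [e2] at c1 c2
  rw [h1]
  generalize (bb k : ℝ) = x at *
  generalize (bb (k + 1) : ℝ) = x1 at *
  generalize (bb (k + 2) : ℝ) = x2 at *
  generalize (bb (k + 3) : ℝ) = x3 at *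
  generalize (Lo k : ℝ) = u at *
  have lo2 : 9 / 4 * x ≤ x2 := by linarith
  have lo3 : 27 / 8 * x ≤ x3 := by linarith
  have hx1 : x1 ≤ 7 / 4 * x := by nlinarith
  have hx2 : x2 ≤ 49 / 16 * x := by nlinarith
  have up1 : x1 ≤ 3 / 2 * x + δ * x := by linarith
  have up2 : x2 ≤ 3 / 2 * x1 + δ * x1 := by linarith
  have up3 : x3 ≤ 3 / 2 * x2 + δ * x2 := by linarith
  have m1 : δ * x1 ≤ 7 / 4 * (δ * x) := by nlinarith
  have m2 : δ * x2 ≤ 49 / 16 * (δ * x) := by nlinarith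
  have hδx : 0 ≤ δ * x := by positivity
  have up3' : x3 ≤ 27 / 8 * x + 10 * (δ * x) := by linarith
  have hε' : δ * x ≤ ε / 4 * x := by nlinarith
  refine ⟨?_, by linarith⟩
  have key : |(u + (x1 - x) - 4 / 19 * x3) - (u - 4 / 19 * x)| ≤ ε * x := by
    rw [abs_le]
    constructor
    · linarith
    · linarith
  have := abs_sub_abs_le_abs_sub (u + (x1 - x) - 4 / 19 * x3) (u - 4 / 19 * x)
  linarith

theorem Lo_err_pow (ε : ℝ) (hε : 0 < ε) : ∃ k0 : ℕ, ∀ n : ℕ, ∀ k ≥ k0 + 3 * n,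
    |(Lo k : ℝ) - 4 / 19 * bb k| ≤ ((1 / 2 : ℝ) ^ n + ε) * bb k := by
  obtain ⟨k0, h0⟩ := Lo_rec_err ε hε
  refine ⟨k0, fun n => ?_⟩
  induction n with
  | zero =>
    intro k _
    have h1 : (Lo k : ℝ) ≤ bb k := by exact_mod_cast cnt_le (fk k) (bb k)
    have h2 : (0 : ℝ) ≤ Lo k := Nat.cast_nonneg _
    have h3 : (0 : ℝ) ≤ bb k := Nat.cast_nonneg _
    have h4 : 0 ≤ ε * bb k := by positivity
    rw [abs_le]
    constructor
    · simp only [pow_zero]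
      linarith
    · simp only [pow_zero]
      linarith
  | succ n ih =>
    intro k hk
    obtain ⟨j, rfl⟩ : ∃ j, k = j + 3 := ⟨k - 3, by omega⟩
    have h1 := ih j (by omega)
    obtain ⟨h2, h3⟩ := h0 j (by omega)
    have h5 : (0 : ℝ) ≤ bb j := Nat.cast_nonneg _
    have h6 : (0 : ℝ) < (1 / 2 : ℝ) ^ n := by positivity
    have h7 : ((1 / 2 : ℝ) ^ n + 2 * ε) * bb j ≤ ((1 / 2 : ℝ) ^ (n + 1) + ε) * (2 * bb j) := by
      rw [pow_succ]
      apply le_of_eq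
      ring
    have h8 : ((1 / 2 : ℝ) ^ (n + 1) + ε) * (2 * bb j) ≤ ((1 / 2 : ℝ) ^ (n + 1) + ε) * bb (j + 3) := by
      apply mul_le_mul_of_nonneg_left
      · linarith
      · positivity
    linarith

theorem Lo_err (ε : ℝ) (hε : 0 < ε) : ∃ k0 : ℕ, ∀ k ≥ k0,
    |(Lo k : ℝ) - 4 / 19 * bb k| ≤ ε * bb k := by
  obtain ⟨k0, h0⟩ := Lo_err_pow (ε / 2) (by positivity)
  obtain ⟨n, hn⟩ := exists_pow_lt_of_lt_one (show 0 < ε / 2 by positivity)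
    (show (1 / 2 : ℝ) < 1 by norm_num)
  refine ⟨k0 + 3 * n, fun k hk => (h0 n k hk).trans ?_⟩
  apply mul_le_mul_of_nonneg_right _ (Nat.cast_nonneg _)
  linarith

/-- SIZES AT THE BORDERS -/
theorem size_bb (ε : ℝ) (hε : 0 < ε) : ∃ k0 : ℕ, ∀ k ≥ k0,
    |(cnt (fk k) (bb k) : ℝ) - 4 / 19 * bb k| ≤ ε * bb k ∧
      |(cnt (fk (k + 1)) (bb k) : ℝ) - 6 / 19 * bb k| ≤ ε * bb k ∧
        |(cnt (fk (k + 2)) (bb k) : ℝ) - 9 / 19 * bb k| ≤ ε * bb k := by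
  have hδ : 0 < min (ε / 8) (1 / 4) := by positivity
  obtain ⟨k0, h0⟩ := bb_ratio (min (ε / 8) (1 / 4)) hδ
  obtain ⟨k1, h1⟩ := Lo_err (min (ε / 8) (1 / 4)) hδ
  have hd1 : min (ε / 8) (1 / 4) ≤ ε / 8 := min_le_left _ _
  have hd2 : min (ε / 8) (1 / 4) ≤ 1 / 4 := min_le_right _ _
  generalize min (ε / 8) (1 / 4) = δ at *
  refine ⟨max k0 k1, fun k hk => ?_⟩
  have hk0 : k0 ≤ k := (le_max_left _ _).trans hk
  have hk1 : k1 ≤ k := (le_max_right _ _).trans hk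
  obtain ⟨a1, a2⟩ := h0 k hk0
  obtain ⟨b1, b2⟩ := h0 (k + 1) (by omega)
  have c0 := h1 k hk1
  have c1 := h1 (k + 1) (by omega)
  have c2 := h1 (k + 2) (by omega)
  rw [Lo_next1, Lo_next2]
  change |(Lo k : ℝ) - 4 / 19 * bb k| ≤ _ ∧ _
  have hb : (0 : ℝ) < bb k := by
    have := bb_ge_pow k
    exact_mod_cast (show 0 < bb k by omega)
  have e1 : (bb (k + 1 + 1) : ℝ) = bb (k + 2) := rfl
  rw [e1] at b1 b2
  generalize (bb k : ℝ) = x at *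
  generalize (bb (k + 1) : ℝ) = x1 at *
  generalize (bb (k + 2) : ℝ) = x2 at *
  have lo2 : 9 / 4 * x ≤ x2 := by linarith
  have hx1 : x1 ≤ 7 / 4 * x := by nlinarith
  have hx2 : x2 ≤ 49 / 16 * x := by nlinarith
  have m1 : δ * x1 ≤ 7 / 4 * (δ * x) := by nlinarith
  have m2 : δ * x2 ≤ 49 / 16 * (δ * x) := by nlinarith
  have hδx : 0 ≤ δ * x := by positivity
  have hε' : δ * x ≤ ε / 8 * x := by nlinarith
  have up1 : x1 ≤ 3 / 2 * x + δ * x := by linarith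
  have up2 : x2 ≤ 3 / 2 * x1 + δ * x1 := by linarith
  rw [abs_le] at c0 c1 c2
  obtain ⟨c01, c02⟩ := c0
  obtain ⟨c11, c12⟩ := c1
  obtain ⟨c21, c22⟩ := c2
  refine ⟨?_, ?_, ?_⟩
  · rw [abs_le]
    constructor <;> linarith
  · rw [abs_le]
    constructor <;> linarith
  · rw [abs_le]
    constructor <;> linarith

/-- SIZES AT ALL POSITIONS of the era `k` -/
theorem size_pos (ε : ℝ) (hε : 0 < ε) : ∃ k0 : ℕ, ∀ k ≥ k0, ∀ y : ℕ, bb k ≤ y → y ≤ bb (k + 1) →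
    |(cnt (fk k) y : ℝ) - (y - 15 / 19 * bb k)| ≤ ε * bb k ∧
      |(cnt (fk (k + 1)) y : ℝ) - 6 / 19 * bb k| ≤ ε * bb k ∧
        |(cnt (fk (k + 2)) y : ℝ) - 9 / 19 * bb k| ≤ ε * bb k := by
  obtain ⟨k0, h0⟩ := size_bb ε hε
  refine ⟨k0, fun k hk y h1 h2 => ?_⟩
  obtain ⟨c1, c2, c3⟩ := cnt_era k y h1 h2
  obtain ⟨d1, d2, d3⟩ := h0 k hk
  rw [c1, c2, c3, Nat.cast_add, Nat.cast_sub h1]
  refine ⟨?_, d2, d3⟩
  have : (cnt (fk k) (bb k) : ℝ) + ((y : ℝ) - bb k) - (y - 15 / 19 * bb k) =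
      (cnt (fk k) (bb k) : ℝ) - 4 / 19 * bb k := by ring
  rw [this]
  exact d1

/-- the positions of a state are close together -/
theorem state_close (ε : ℝ) (hε : 0 < ε) : ∃ s0 : ℕ, ∀ s ≥ s0,
    sl s < se s ∧ se s < sk s ∧ sk s < sk (s + 1) ∧ ((sk (s + 1) : ℕ) : ℝ) ≤ (1 + ε) * sl s := by
  obtain ⟨y0, h0⟩ := gap_le_eps (ε / 4) (by positivity)
  refine ⟨2 * y0, fun s hs => ⟨sl_lt_se s, se_lt_sk s, sk_strictMono (Nat.lt_succ_self s), ?_⟩⟩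
  have h1 : y0 ≤ sl s := by
    have h2 : s / 2 ≤ tau (s / 2) := tau_strictMono.id_le _
    have h3 : y0 ≤ s / 2 := by omega
    exact h3.trans h2
  have h4 := h0 (sl s) h1
  have h5 : ((sk (s + 1) : ℕ) : ℝ) ≤ sl s + 4 * sg s := by exact_mod_cast sk_succ_le s
  have h6 : (sg s : ℝ) = gap (sl s) := rfl
  rw [h6] at h5
  linarith

theorem sl_ge_half (s : ℕ) : s / 2 ≤ sl s := tau_strictMono.id_le _

/-- sizes of the families at any position between `sl s` and `sk (s + 1)` -/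
theorem size_state (ε : ℝ) (hε : 0 < ε) : ∃ s0 : ℕ, ∀ s ≥ s0, ∀ y : ℕ, sl s ≤ y →
    y ≤ sk (s + 1) → ∀ f : Fin 3, |(cnt f y : ℝ) - cnt f (sl s)| ≤ ε * sl s := by
  obtain ⟨s0, h0⟩ := state_close ε hε
  refine ⟨s0, fun s hs y h1 h2 f => ?_⟩
  obtain ⟨_, _, _, h3⟩ := h0 s hs
  obtain ⟨h4, h5⟩ := cnt_lip f h1
  have h6 : ((cnt f (sl s) : ℕ) : ℝ) ≤ cnt f y := by exact_mod_cast h4
  have h7 : (cnt f y : ℝ) ≤ cnt f (sl s) + (y - sl s) := by
    rw [← Nat.cast_sub h1]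
    exact_mod_cast h5
  have h8 : (y : ℝ) ≤ sk (s + 1) := by exact_mod_cast h2
  rw [abs_le]
  constructor <;> linarith

end Pool.Agent.Helper36.T4
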