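import Pool.Agent.Helper36.T4.LogN
import Pool.Agent.Helper98.T4.Count

/-!
# T4' (MP_12a1af): the sizes in the variables of the table
-/

namespace Pool.Agent.Helper36.T4

open Finset Pool.Agent.Helper27.T4 Pool.Agent.Helper5.ET
open Pool.Agent.Helper98.T4 (al)

/-- the size of the owner of the era `k + t` at its beginning -/
noncomputable def Wk (k t : ℕ) : ℝ := (Lo (k + t) : ℝ) * Real.log (pr (fk (k + t)))

/-- the size of the family `i` in the era `d` at the relative position `x` -/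
noncomputable def lamR (d : ℕ) (W : ℕ → ℝ) (x : ℝ) (i : ℕ) : ℝ :=
  if i = 0 then (1 - x) * W d + x * W (d + 3) else W (d + i)

theorem al_pos (k d l i : ℕ) (hi : i < 3) (h1 : bb (k + d) ≤ l) (h2 : l ≤ bb (k + d + 1)) :
    al (fk (k + d + i)) l =
      lamR d (Wk k) (((l : ℝ) - bb (k + d)) / ((bb (k + d + 1) : ℝ) - bb (k + d))) i := by
  obtain ⟨c1, c2, c3⟩ := cnt_era (k + d) l h1 h2
  unfold al lamR Wk
  rcases Nat.eq_zero_or_pos i with h0 | h0
  · subst h0
    rw [if_pos rfl]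
    have e1 : fk (k + d + 0) = fk (k + d) := rfl
    have e2 : fk (k + (d + 3)) = fk (k + d) := fk_add3 (k + d)
    have e3 : Lo (k + (d + 3)) = Lo (k + d) + (bb (k + d + 1) - bb (k + d)) := Lo_rec (k + d)
    rw [e1, e2, e3, c1, Nat.cast_add, Nat.cast_add, Nat.cast_sub h1,
      Nat.cast_sub (bb_lt_succ (k + d)).le]
    have h3 : (bb (k + d) : ℝ) < bb (k + d + 1) := by exact_mod_cast bb_lt_succ (k + d)
    have h4 : (bb (k + d + 1) : ℝ) - bb (k + d) ≠ 0 := by
      intro h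
      linarith
    have h5 : ((l : ℝ) - bb (k + d)) / ((bb (k + d + 1) : ℝ) - bb (k + d)) *
        ((bb (k + d + 1) : ℝ) - bb (k + d)) = (l : ℝ) - bb (k + d) := div_mul_cancel₀ _ h4
    have h6 : ((cnt (fk (k + d)) (bb (k + d)) : ℕ) : ℝ) = Lo (k + d) := rfl
    rw [h6]
    linear_combination (- Real.log (pr (fk (k + d)))) * h5
  · rw [if_neg h0.ne']
    obtain rfl | rfl : i = 1 ∨ i = 2 := by omega
    · rw [c2, Lo_next1]
      rfl
    · rw [c3, Lo_next2]
      rfl

theorem sum_al (l : ℕ) : ∑ f : Fin 3, al f l = Real.log (Nj l) := by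
  rw [log_Nj]
  rfl

/-- the three families are the owners of three consecutive eras -/
theorem sum_fk (k : ℕ) (g : Fin 3 → ℝ) : ∑ f : Fin 3, g f = ∑ i ∈ range 3, g (fk (k + i)) := by
  have h : ∀ r : ℕ, r < 3 → ∀ k : ℕ, k % 3 = r →
      ∑ f : Fin 3, g f = ∑ i ∈ range 3, g (fk (k + i)) := by
    intro r hr k hk
    rw [Finset.sum_range_succ, Finset.sum_range_succ, Finset.sum_range_one, Fin.sum_univ_three]
    obtain rfl | rfl | rfl : r = 0 ∨ r = 1 ∨ r = 2 := by omega
    · have e0 : fk (k + 0) = 0 := Fin.ext hk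
      have e1 : fk (k + 1) = 1 := Fin.ext (by show (k + 1) % 3 = 1; omega)
      have e2 : fk (k + 2) = 2 := Fin.ext (by show (k + 2) % 3 = 2; omega)
      rw [e0, e1, e2]
    · have e0 : fk (k + 0) = 1 := Fin.ext hk
      have e1 : fk (k + 1) = 2 := Fin.ext (by show (k + 1) % 3 = 2; omega)
      have e2 : fk (k + 2) = 0 := Fin.ext (by show (k + 2) % 3 = 0; omega)
      rw [e0, e1, e2]
      ring
    · have e0 : fk (k + 0) = 2 := Fin.ext hk
      have e1 : fk (k + 1) = 0 := Fin.ext (by show (k + 1) % 3 = 0; omega)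
      have e2 : fk (k + 2) = 1 := Fin.ext (by show (k + 2) % 3 = 1; omega)
      rw [e0, e1, e2]
      ring
  exact h (k % 3) (Nat.mod_lt _ (by norm_num)) k rfl

theorem bb_grow (k : ℕ) : (3 / 2 : ℝ) * bb k ≤ bb (k + 1) := by
  have h2 := bb_gt2 k
  have h4 := bb_lt_succ k
  have : bb k + 2 * bb k < 2 * bb (k + 1) := by omega
  have h6 : ((bb k + 2 * bb k : ℕ) : ℝ) < ((2 * bb (k + 1) : ℕ) : ℝ) := by exact_mod_cast this
  push_cast at h6
  linarith

/-- era distance -/
theorem era_dist (l l' : ℕ) (h0 : bb 0 ≤ l') (h0' : bb 0 ≤ l)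
    (h : (199 / 1000 : ℝ) * l ≤ l') : era l ≤ era l' + 4 := by
  by_contra h1
  push Not at h1
  have h2 : era l' + 5 ≤ era l := h1
  obtain ⟨h3, _⟩ := era_spec l h0'
  obtain ⟨_, h4⟩ := era_spec l' h0
  have h5 : bb (era l' + 5) ≤ l := (bb_strictMono.monotone h2).trans h3
  have h5' : (bb (era l' + 5) : ℝ) ≤ l := by exact_mod_cast h5
  have h4' : (l' : ℝ) < bb (era l' + 1) := by exact_mod_cast h4
  have g1 := bb_grow (era l' + 1)
  have g2 := bb_grow (era l' + 2)
  have g3 := bb_grow (era l' + 3)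
  have g4 := bb_grow (era l' + 4)
  have e1 : (bb (era l' + 1 + 1) : ℝ) = bb (era l' + 2) := rfl
  have e2 : (bb (era l' + 2 + 1) : ℝ) = bb (era l' + 3) := rfl
  have e3 : (bb (era l' + 3 + 1) : ℝ) = bb (era l' + 4) := rfl
  have e4 : (bb (era l' + 4 + 1) : ℝ) = bb (era l' + 5) := rfl
  rw [e1] at g1
  rw [e2] at g2
  rw [e3] at g3
  rw [e4] at g4
  have h6 : (0 : ℝ) < bb (era l' + 1) := by
    have := bb_ge_pow (era l' + 1)
    exact_mod_cast (show 0 < bb (era l' + 1) by omega)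
  linarith

end Pool.Agent.Helper36.T4
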