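import Pool.Agent.Helper36.T4.LogN

/-!
# T4' (MP_12a1af): the window and the last digits are small
-/

namespace Pool.Agent.Helper36.T4

open Finset Pool.Agent.Helper27.T4 Pool.Agent.Helper5.ET

theorem Nj_pos' (y : ℕ) : 0 < Nj y := NN_pos pr_prime _

theorem log_Nj_diff {y z : ℕ} (h : y ≤ z) :
    Real.log (Nj z) ≤ Real.log (Nj y) + 14 * ((z : ℝ) - y) ∧
      Real.log (Nj y) ≤ Real.log (Nj z) := by
  rw [log_Nj, log_Nj]
  have hc : ∀ f : Fin 3, (cnt f y : ℝ) ≤ cnt f z := fun f => by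
    exact_mod_cast (cnt_lip f h).1
  have hs1 : ∑ f : Fin 3, (cnt f y : ℝ) = y := by exact_mod_cast cnt_total y
  have hs2 : ∑ f : Fin 3, (cnt f z : ℝ) = z := by exact_mod_cast cnt_total z
  constructor
  · have h1 : ∀ f ∈ (univ : Finset (Fin 3)), (cnt f z : ℝ) * Real.log (pr f) ≤
        cnt f y * Real.log (pr f) + 14 * ((cnt f z : ℝ) - cnt f y) := by
      intro f _
      have h2 := (log_pr f).2
      have h3 := hc f
      nlinarith
    refine (Finset.sum_le_sum h1).trans ?_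
    rw [Finset.sum_add_distrib, ← Finset.mul_sum, Finset.sum_sub_distrib, hs1, hs2]
  · refine Finset.sum_le_sum fun f _ => ?_
    exact mul_le_mul_of_nonneg_right (hc f) (by linarith [(log_pr f).1])

theorem vhi_exp (s : ℕ) : (vhi s : ℝ) ≤
    Real.exp (Real.log (Nj (sk (s + 1))) - Real.log (Nj (sl s))) := by
  have h1 : (0 : ℝ) < Nj (sk (s + 1)) := by exact_mod_cast Nj_pos' _
  have h2 : (0 : ℝ) < Nj (sl s) := by exact_mod_cast Nj_pos' _
  rw [Real.exp_sub, Real.exp_log h1, Real.exp_log h2]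
  unfold vhi
  calc (((Nj (sk (s + 1)) - Nj (se s)) / Nj (sl s) : ℕ) : ℝ) ≤
      ((Nj (sk (s + 1)) - Nj (se s) : ℕ) : ℝ) / Nj (sl s) := Nat.cast_div_le
    _ ≤ (Nj (sk (s + 1)) : ℝ) / Nj (sl s) := by
      apply div_le_div_of_nonneg_right _ h2.le
      exact_mod_cast Nat.sub_le _ _

theorem state_small (ε : ℝ) (hε : 0 < ε) : ∃ s0 : ℕ, ∀ s ≥ s0,
    Real.log (Nj (sk (s + 1))) ≤ Real.log (Nj (sl s)) + ε * sl s ∧
      (vhi s : ℝ) ≤ Real.exp (ε * sl s) := by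
  obtain ⟨s0, h0⟩ := state_close (ε / 14) (by positivity)
  refine ⟨s0, fun s hs => ?_⟩
  obtain ⟨h1, h2, h3, h4⟩ := h0 s hs
  have h5 := (log_Nj_diff (y := sl s) (z := sk (s + 1)) (by omega)).1
  have h6 : Real.log (Nj (sk (s + 1))) ≤ Real.log (Nj (sl s)) + ε * sl s := by
    have : 14 * ((sk (s + 1) : ℝ) - sl s) ≤ ε * sl s := by linarith
    linarith
  refine ⟨h6, (vhi_exp s).trans (Real.exp_le_exp.mpr (by linarith))⟩

/-- two states -/
theorem states_small (ε : ℝ) (hε : 0 < ε) : ∃ s0 : ℕ, ∀ s s' : ℕ, s0 ≤ s →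
    (199 / 1000 : ℝ) * sl s ≤ sl s' → sl s' ≤ sl s →
    Real.log (Nj (sk (s' + 1))) ≤ Real.log (Nj (sl s')) + ε * sl s ∧
      (vhi s : ℝ) ≤ Real.exp (ε * sl s) ∧ (vhi s' : ℝ) ≤ Real.exp (ε * sl s) := by
  obtain ⟨s0, h0⟩ := state_small ε hε
  -- `s` so large that `s' ≥ s0`
  refine ⟨2 * (6 * sl s0 + 1), fun s s' hs h1 h2 => ?_⟩
  have h3 : s / 2 ≤ sl s := sl_ge_half s
  have h4 : 6 * sl s0 + 1 ≤ sl s := by omega
  have h4' : (6 : ℝ) * sl s0 + 1 ≤ sl s := by exact_mod_cast h4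
  have h5 : (sl s0 : ℝ) < sl s' := by
    have : (0 : ℝ) ≤ sl s0 := Nat.cast_nonneg _
    linarith
  have h6 : s0 ≤ s' := by
    by_contra hh
    push Not at hh
    have : sl s' ≤ sl s0 := sl_mono hh.le
    have h7 : (sl s' : ℝ) ≤ sl s0 := by exact_mod_cast this
    linarith
  have h7 : s0 ≤ s := by
    have h8 : s0 / 2 ≤ sl s0 := sl_ge_half s0
    omega
  obtain ⟨a1, a2⟩ := h0 s h7
  obtain ⟨b1, b2⟩ := h0 s' h6
  have h8 : (sl s' : ℝ) ≤ sl s := by exact_mod_cast h2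
  have h9 : ε * sl s' ≤ ε * sl s := mul_le_mul_of_nonneg_left h8 hε.le
  exact ⟨by linarith, a2, b2.trans (Real.exp_le_exp.mpr h9)⟩

/-- a large `s'` -/
theorem large_of_theta (s1 : ℕ) : ∃ s0 : ℕ, ∀ s s' : ℕ, s0 ≤ s →
    (199 / 1000 : ℝ) * sl s ≤ sl s' → s1 ≤ s ∧ s1 ≤ s' := by
  refine ⟨2 * (6 * sl s1 + 1), fun s s' hs h1 => ?_⟩
  have h3 : s / 2 ≤ sl s := sl_ge_half s
  have h4 : 6 * sl s1 + 1 ≤ sl s := by omega
  have h4' : (6 : ℝ) * sl s1 + 1 ≤ sl s := by exact_mod_cast h4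
  have h5 : (sl s1 : ℝ) < sl s' := by
    have : (0 : ℝ) ≤ sl s1 := Nat.cast_nonneg _
    linarith
  have h6 : s1 ≤ s' := by
    by_contra hh
    push Not at hh
    have : sl s' ≤ sl s1 := sl_mono hh.le
    have h7 : (sl s' : ℝ) ≤ sl s1 := by exact_mod_cast this
    linarith
  have h8 : s1 / 2 ≤ sl s1 := sl_ge_half s1
  exact ⟨by omega, h6⟩

/-- a large era -/
theorem era_large (k0 : ℕ) : ∃ s0 : ℕ, ∀ s ≥ s0, k0 ≤ era (sl s) := by
  refine ⟨2 * bb k0, fun s hs => ?_⟩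
  have h1 : bb k0 ≤ sl s := by
    have := sl_ge_half s
    omega
  by_contra h2
  push Not at h2
  have h3 : bb 0 ≤ sl s := tau_ge _
  obtain ⟨_, h4⟩ := era_spec (sl s) h3
  have h5 : bb (era (sl s) + 1) ≤ bb k0 := bb_strictMono.monotone h2
  omega

end Pool.Agent.Helper36.T4
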