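import Pool.Agent.Helper36.T4.Size

/-!
# T4' (MP_12a1af): logarithm of the modulus
-/

namespace Pool.Agent.Helper36.T4

open Finset Pool.Agent.Helper27.T4 Pool.Agent.Helper5.ET

theorem cnt_total (y : ℕ) : ∑ f : Fin 3, cnt f y = y := by
  have h := Finset.card_eq_sum_card_fiberwise (s := range y) (t := (univ : Finset (Fin 3)))
    (f := own) (fun _ _ => mem_univ _)
  rw [card_range] at h
  exact h.symm

theorem log_pr (f : Fin 3) : 13 < Real.log (pr f) ∧ Real.log (pr f) < 14 := by
  have h1 : (1000003 : ℝ) ≤ pr f ∧ (pr f : ℝ) ≤ 1000037 := by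
    fin_cases f <;> simp [pr] <;> norm_num
  have e1 : Real.exp 1 < 2.7182818286 := Real.exp_one_lt_d9
  have e2 : 2.7182818283 < Real.exp 1 := Real.exp_one_gt_d9
  have hp : (0 : ℝ) < pr f := by linarith [h1.1]
  constructor
  · rw [Real.lt_log_iff_exp_lt hp]
    have h2 : Real.exp 13 = Real.exp 1 ^ 13 := by
      rw [← Real.exp_nat_mul]
      norm_num
    rw [h2]
    calc Real.exp 1 ^ 13 ≤ (2.7182818286 : ℝ) ^ 13 :=
          pow_le_pow_left₀ (Real.exp_pos 1).le e1.le 13
      _ < 1000003 := by norm_num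
      _ ≤ pr f := h1.1
  · rw [Real.log_lt_iff_lt_exp hp]
    have h2 : Real.exp 14 = Real.exp 1 ^ 14 := by
      rw [← Real.exp_nat_mul]
      norm_num
    rw [h2]
    calc (pr f : ℝ) ≤ 1000037 := h1.2
      _ < (2.7182818283 : ℝ) ^ 14 := by norm_num
      _ ≤ Real.exp 1 ^ 14 := pow_le_pow_left₀ (by norm_num) e2.le 14

theorem log_Nj (j : ℕ) : Real.log (Nj j) = ∑ f : Fin 3, (cnt f j : ℝ) * Real.log (pr f) := by
  unfold Nj NN
  rw [Nat.cast_prod, Real.log_prod]
  · refine sum_congr rfl fun f _ => ?_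
    rw [Nat.cast_pow, Real.log_pow]
    rfl
  · intro f _
    have := (pr_prime f).pos
    positivity

/-- the logarithms of the three primes are almost equal -/
theorem log_pr_close (f g : Fin 3) : |Real.log (pr f) - Real.log (pr g)| ≤ 1 / 28000 := by
  have hb : ∀ f : Fin 3, (1000003 : ℝ) ≤ pr f ∧ (pr f : ℝ) ≤ 1000037 := by
    intro f
    fin_cases f <;> simp [pr] <;> norm_num
  have key : ∀ f g : Fin 3, Real.log (pr f) - Real.log (pr g) ≤ 1 / 28000 := by
    intro f g
    have hf : (0 : ℝ) < pr f := by linarith [(hb f).1]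
    have hg : (0 : ℝ) < pr g := by linarith [(hb g).1]
    rw [← Real.log_div hf.ne' hg.ne']
    refine (Real.log_le_sub_one_of_pos (by positivity)).trans ?_
    rw [sub_le_iff_le_add, div_le_iff₀ hg]
    have := (hb f).2
    have := (hb g).1
    linarith
  rw [abs_le]
  constructor
  · have := key g f
    linarith
  · exact key f g

end Pool.Agent.Helper36.T4
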